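import Pool.Agent.V11118.Hyp

/-!
Hyperbolic vertex-transitive graphs without linear growth have infinite survival number.
-/

namespace Pool.Agent.Results.MP_5fb5c8_co.HyperbolicInfinite

open Pool.Agent.V11118.Survival Pool.Agent.V11118.Hyp

theorem result {V : Type*} (G : SimpleGraph V) (hn : Nice G) (hh : Hyperbolic G)
    (hg : ¬ LinearGrowth G) : survival G = ⊤ :=
  Pool.Agent.V11118.Hyp.survival_eq_top hn hh hg

end Pool.Agent.Results.MP_5fb5c8_co.HyperbolicInfinite
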